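import Mathlib

/-!
Generic deterministic multi-tape generating machines over arbitrary finite types, and their
translation to the concrete format over `Fin`.
-/

namespace Pool.Agent.W_MP_5d512e_lc

/-- configurations: state, tapes, head positions, output -/
abbrev Cfg (ι Q Γ D : Type) := Q × (ι → ℕ → Γ) × (ι → ℕ) × List D

/-- transition functions; directions: 0 = left, 1 = stay, 2 = right -/
abbrev Trans (ι Q Γ D : Type) := Q → (ι → Γ) → Q × (ι → Γ) × (ι → Fin 3) × Option D

variable {ι Q Γ D : Type}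

/-- one step -/
def step (δ : Trans ι Q Γ D) (c : Cfg ι Q Γ D) : Cfg ι Q Γ D :=
  ((δ c.1 (fun j => c.2.1 j (c.2.2.1 j))).1,
   fun j i => if i = c.2.2.1 j then (δ c.1 (fun j' => c.2.1 j' (c.2.2.1 j'))).2.1 j
     else c.2.1 j i,
   fun j => c.2.2.1 j + ((δ c.1 (fun j' => c.2.1 j' (c.2.2.1 j'))).2.2.1 j : ℕ) - 1,
   c.2.2.2 ++ ((δ c.1 (fun j' => c.2.1 j' (c.2.2.1 j'))).2.2.2).toList)

/-- all heads at positions at most `B` -/
def ok (B : ℕ) (c : Cfg ι Q Γ D) : Prop := ∀ j, c.2.2.1 j ≤ B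

/-- `c` reaches `c'`, all heads staying at positions at most `B` -/
inductive Reach (δ : Trans ι Q Γ D) (B : ℕ) : Cfg ι Q Γ D → Cfg ι Q Γ D → Prop
  | refl (c : Cfg ι Q Γ D) : ok B c → Reach δ B c c
  | head (c c' : Cfg ι Q Γ D) : ok B c → Reach δ B (step δ c) c' → Reach δ B c c'

lemma Reach.trans {δ : Trans ι Q Γ D} {B : ℕ} {c c' c'' : Cfg ι Q Γ D}
    (h : Reach δ B c c') (h' : Reach δ B c' c'') : Reach δ B c c'' := by
  induction h with
  | refl c _ => exact h'
  | head c c' hc _ ih => exact Reach.head _ _ hc (ih h')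

lemma Reach.iter {δ : Trans ι Q Γ D} {B : ℕ} {c c' : Cfg ι Q Γ D} (h : Reach δ B c c') :
    ∃ N, (step δ)^[N] c = c' ∧ ∀ i ≤ N, ok B ((step δ)^[i] c) := by
  induction h with
  | refl c hc =>
    refine ⟨0, rfl, ?_⟩
    intro i hi
    have : i = 0 := by omega
    subst this
    exact hc
  | head c c' hc _ ih =>
    obtain ⟨N, hN, hok⟩ := ih
    refine ⟨N + 1, by rw [Function.iterate_succ_apply]; exact hN, ?_⟩
    intro i hi
    cases i with
    | zero => exact hc
    | succ i =>
      rw [Function.iterate_succ_apply]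
      exact hok i (by omega)

lemma Reach.one {δ : Trans ι Q Γ D} {B : ℕ} {c c' : Cfg ι Q Γ D} (h : step δ c = c')
    (h1 : ok B c) (h2 : ok B c') : Reach δ B c c' := by
  subst h
  exact Reach.head _ _ h1 (Reach.refl _ h2)

lemma out_prefix_step (δ : Trans ι Q Γ D) (c : Cfg ι Q Γ D) :
    c.2.2.2 <+: (step δ c).2.2.2 := by
  unfold step
  exact List.prefix_append _ _

lemma out_length_step (δ : Trans ι Q Γ D) (c : Cfg ι Q Γ D) :
    (step δ c).2.2.2.length ≤ c.2.2.2.length + 1 := by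
  unfold step
  simp only [List.length_append]
  have : ∀ o : Option D, o.toList.length ≤ 1 := by
    intro o; cases o <;> simp
  have := this (δ c.1 (fun j' => c.2.1 j' (c.2.2.1 j'))).2.2.2
  omega

lemma out_prefix_iter (δ : Trans ι Q Γ D) (c : Cfg ι Q Γ D) (n m : ℕ) (h : n ≤ m) :
    ((step δ)^[n] c).2.2.2 <+: ((step δ)^[m] c).2.2.2 := by
  induction m with
  | zero =>
    have : n = 0 := by omega
    subst this
    exact List.prefix_rfl
  | succ m ih =>
    by_cases hn : n ≤ m
    · refine (ih hn).trans ?_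
      rw [Function.iterate_succ_apply']
      exact out_prefix_step δ _
    · have : n = m + 1 := by omega
      subst this
      exact List.prefix_rfl

/-- a pointed finite type is equivalent to some `Fin (m+1)`, the point going to `0` -/
lemma exists_equiv_fin (A : Type) [Finite A] (a : A) :
    ∃ (m : ℕ) (e : A ≃ Fin (m + 1)), e a = 0 := by
  classical
  obtain ⟨n, ⟨e⟩⟩ := Finite.exists_equiv_fin A
  cases n with
  | zero => exact (e a).elim0
  | succ m =>
    refine ⟨m, e.trans (Equiv.swap (e a) 0), ?_⟩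
    simp

/-- translation of a machine over finite types to the concrete format -/
theorem encode {d : ℕ} [Finite ι] [Finite Q] [Finite Γ] (q₀ : Q) (bl : Γ)
    (δ : Trans ι Q Γ (Fin d)) :
    ∃ (m k g : ℕ)
      (δM : Fin (m+1) → (Fin k → Fin (g+1)) →
        Fin (m+1) × (Fin k → Fin (g+1)) × (Fin k → Fin 3) × Option (Fin d))
      (conf : ℕ → Fin (m+1) × (Fin k → ℕ → Fin (g+1)) × (Fin k → ℕ) × List (Fin d))
      (e : ι ≃ Fin k),
      conf 0 = (0, fun _ _ => 0, fun _ => 0, []) ∧
      (∀ t : ℕ, conf (t+1) =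
        ((δM (conf t).1 (fun j => (conf t).2.1 j ((conf t).2.2.1 j))).1,
         fun j i => if i = (conf t).2.2.1 j
           then (δM (conf t).1 (fun j' => (conf t).2.1 j' ((conf t).2.2.1 j'))).2.1 j
           else (conf t).2.1 j i,
         fun j => (conf t).2.2.1 j
           + ((δM (conf t).1 (fun j' => (conf t).2.1 j' ((conf t).2.2.1 j'))).2.2.1 j : ℕ) - 1,
         (conf t).2.2.2
           ++ ((δM (conf t).1 (fun j' => (conf t).2.1 j' ((conf t).2.2.1 j'))).2.2.2).toList)) ∧
      (∀ t, (conf t).2.2.2 = ((step δ)^[t] (q₀, fun _ _ => bl, fun _ => 0, [])).2.2.2) ∧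
      (∀ t j, (conf t).2.2.1 j
        = ((step δ)^[t] (q₀, fun _ _ => bl, fun _ => 0, [])).2.2.1 (e.symm j)) := by
  classical
  obtain ⟨k, ⟨e⟩⟩ := Finite.exists_equiv_fin ι
  obtain ⟨m, eQ, hQ⟩ := exists_equiv_fin Q q₀
  obtain ⟨g, eG, hG⟩ := exists_equiv_fin Γ bl
  set c : ℕ → Cfg ι Q Γ (Fin d) := fun t => (step δ)^[t] (q₀, fun _ _ => bl, fun _ => 0, [])
    with hc
  refine ⟨m, k, g,
    fun q r => (eQ (δ (eQ.symm q) (fun j => eG.symm (r (e j)))).1,
      fun j => eG ((δ (eQ.symm q) (fun j => eG.symm (r (e j)))).2.1 (e.symm j)),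
      fun j => (δ (eQ.symm q) (fun j => eG.symm (r (e j)))).2.2.1 (e.symm j),
      (δ (eQ.symm q) (fun j => eG.symm (r (e j)))).2.2.2),
    fun t => (eQ (c t).1, fun j i => eG ((c t).2.1 (e.symm j) i), fun j => (c t).2.2.1 (e.symm j),
      (c t).2.2.2), e, ?_, ?_, ?_, ?_⟩
  · simp [hc, hQ, hG]
  · intro t
    have hs : c (t + 1) = step δ (c t) := by
      rw [hc]
      simp only [Function.iterate_succ_apply']
    simp only [hs]
    have hr : (fun j => eG.symm (eG ((c t).2.1 (e.symm (e j)) ((c t).2.2.1 (e.symm (e j))))))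
        = (fun j => (c t).2.1 j ((c t).2.2.1 j)) := by
      funext j
      simp
    simp only [Equiv.symm_apply_apply] at hr ⊢
    unfold step
    refine Prod.ext rfl (Prod.ext ?_ (Prod.ext rfl rfl))
    funext j i
    simp only
    split_ifs <;> rfl
  · intro t; rfl
  · intro t j; rfl

end Pool.Agent.W_MP_5d512e_lc
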