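import Mathlib
import Pool.Agent.W_MP_5d512e_lc.Machine

/-!
The concrete three-tape machine generating the word of an iterated dgsm.
-/

namespace Pool.Agent.W_MP_5d512e_lc

/-- data of a non-erasing dgsm with a letter `a` such that `out q0 a = a :: r0` -/
structure Dgsm (d p : ℕ) where
  δ : Fin p → Fin d → Fin p
  q0 : Fin p
  out : Fin p → Fin d → List (Fin d)
  M : ℕ
  hM : ∀ s x, (out s x).length ≤ M
  ne : ∀ s x, out s x ≠ []
  a : Fin d
  r0 : List (Fin d)
  hr0 : out q0 a = a :: r0

variable {d p : ℕ}

/-- words of length at most `M` -/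
abbrev BL (d M : ℕ) := {l : List (Fin d) // l.length ≤ M}

/-- tape symbols -/
inductive Sym (d p M : ℕ)
  | blank
  | mark
  | ltr (x : Fin d)
  | lev (q : Fin p) (l : BL d M)
  deriving DecidableEq

/-- what to do after rewinding -/
inductive Nxt
  | toCmp
  | toReq
  | toSh

/-- control states -/
inductive St (d p M : ℕ)
  | start
  | ini (l : BL d M)
  | cmp (b : Bool) (s : Fin p)
  | rew (b : Bool) (s : Fin p) (n : Nxt)
  | req (b : Bool) (s : Fin p)
  | feed (b : Bool) (s : Fin p) (x : Fin d)
  | sh (b : Bool) (s : Fin p)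
  | shw (b : Bool) (s : Fin p) (l : BL d M)

/-- triple indexed by the tapes: `none` is the tape of levels, `some b` the current row tape,
`some !b` the other row tape -/
def tri {α : Type} (b : Bool) (x y z : α) : Option Bool → α
  | none => x
  | some c => if c = b then y else z

@[simp] lemma tri_none {α : Type} (b : Bool) (x y z : α) : tri b x y z none = x := rfl
@[simp] lemma tri_b {α : Type} (b : Bool) (x y z : α) : tri b x y z (some b) = y := by
  simp [tri]
@[simp] lemma tri_nb {α : Type} (b : Bool) (x y z : α) : tri b x y z (some !b) = z := by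
  simp [tri]

lemma tri_flip {α : Type} (b : Bool) (x y z : α) : tri b x y z = tri (!b) x z y := by
  funext j
  rcases j with _ | c
  · rfl
  · cases b <;> cases c <;> rfl

/-- empty bounded word -/
def eBL {M : ℕ} : BL d M := ⟨[], Nat.zero_le _⟩

lemma tail_le {M : ℕ} {x : Fin d} {l : List (Fin d)} (h : (x :: l).length ≤ M) : l.length ≤ M :=
  le_trans (Nat.le_succ _) h

namespace Dgsm

variable (G : Dgsm d p)

/-- first letter emitted -/
def hd (q : Fin p) (x : Fin d) : Fin d := (G.out q x).head (G.ne q x)

/-- the rest of the emitted word -/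
def tl (q : Fin p) (x : Fin d) : BL d G.M :=
  ⟨(G.out q x).tail, le_trans (by simp) (G.hM q x)⟩

lemma hd_tl (q : Fin p) (x : Fin d) : G.out q x = G.hd q x :: (G.tl q x).1 := by
  unfold hd tl
  simp

/-- state reached after reading a word -/
def st : Fin p → List (Fin d) → Fin p
  | q, [] => q
  | q, x :: u => st (G.δ q x) u

/-- output on a word -/
def trans : Fin p → List (Fin d) → List (Fin d)
  | _, [] => []
  | q, x :: u => G.out q x ++ trans (G.δ q x) u

/-- the transition function of the generating machine -/
def tr : Trans (Option Bool) (St d p G.M) (Sym d p G.M) (Fin d) := fun q r =>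
  match q with
  | .start => (.ini ⟨G.r0, by have := G.hM G.q0 G.a; rw [G.hr0] at this; exact tail_le this⟩,
      tri false .mark .mark .mark, tri false 2 2 2, some G.a)
  | .ini ⟨[], _⟩ => (.rew false (G.δ G.q0 G.a) .toCmp, r, tri false 1 1 1, none)
  | .ini ⟨x :: l, h⟩ => (.ini ⟨l, tail_le h⟩, tri false (r none) (.ltr x) (r (some true)),
      tri false 1 2 1, some x)
  | .cmp b s =>
    match r (some b) with
    | .ltr _ =>
      match r none with
      | .blank => (.rew b s .toReq, tri b (.lev s eBL) (r (some b)) (r (some !b)), tri b 1 1 1, none)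
      | _ => (.cmp b s, r, tri b 2 2 1, none)
    | _ => (.rew b s .toSh, r, tri b 1 1 1, none)
  | .rew b s n =>
    if r none = .mark ∧ r (some b) = .mark ∧ r (some !b) = .mark then
      ((match n with
        | .toCmp => .cmp b s
        | .toReq => .req b s
        | .toSh => .sh b s), r, tri b 2 2 2, none)
    else (.rew b s n, r, tri b 0 0 0, none)
  | .req b s =>
    match r none with
    | .lev q ⟨x :: l, h⟩ => (.feed b s x, tri b (.lev q ⟨l, tail_le h⟩) (r (some b)) (r (some !b)),
        tri b 0 1 1, none)
    | .lev _ ⟨[], _⟩ => (.req b s, r, tri b 2 1 1, none)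
    | _ =>
      match r (some b) with
      | .ltr x => (.feed b s x, r, tri b 0 2 1, none)
      | _ => (.rew b s .toCmp, r, tri b 1 1 1, none)
  | .feed b s x =>
    match r none with
    | .lev q _ => (.feed b s (G.hd q x),
        tri b (.lev (G.δ q x) (G.tl q x)) (r (some b)) (r (some !b)), tri b 0 1 1, none)
    | _ => (.req b s, r, tri b 2 1 1, some x)
  | .sh b s =>
    match r (some b) with
    | .ltr x => (.shw b (G.δ s x) ⟨G.out s x, G.hM s x⟩, r, tri b 1 2 1, none)
    | _ => (.rew (!b) s .toReq, r, tri b 1 1 1, none)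
  | .shw b s ⟨[], _⟩ => (.sh b s, r, tri b 1 1 1, none)
  | .shw b s ⟨z :: l, h⟩ => (.shw b s ⟨l, tail_le h⟩, tri b (r none) (r (some b)) (.ltr z),
      tri b 1 1 2, none)

end Dgsm

/-- overwrite one cell -/
def upd {Γ : Type} (T : ℕ → Γ) (h : ℕ) (x : Γ) : ℕ → Γ := fun i => if i = h then x else T i

lemma upd_self {Γ : Type} (T : ℕ → Γ) (h : ℕ) : upd T h (T h) = T := by
  funext i
  unfold upd
  split_ifs with hi
  · rw [hi]
  · rfl

lemma step_eq {Q Γ D : Type} {δ : Trans (Option Bool) Q Γ D} {b : Bool} {q q' : Q}
    {TL TR TW : ℕ → Γ} {hl hr hw : ℕ} {out : List D} {l' r' w' : Γ} {dl dr dw : Fin 3}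
    {o : Option D}
    (h : δ q (tri b (TL hl) (TR hr) (TW hw)) = (q', tri b l' r' w', tri b dl dr dw, o)) :
    step δ (q, tri b TL TR TW, tri b hl hr hw, out)
      = (q', tri b (upd TL hl l') (upd TR hr r') (upd TW hw w'),
          tri b (hl + (dl : ℕ) - 1) (hr + (dr : ℕ) - 1) (hw + (dw : ℕ) - 1), out ++ o.toList) := by
  have hread : (fun j => tri b TL TR TW j (tri b hl hr hw j))
      = tri b (TL hl) (TR hr) (TW hw) := by
    funext j
    rcases j with _ | c
    · rfl
    · cases b <;> cases c <;> rfl
  unfold step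
  simp only [hread, h]
  refine Prod.ext rfl (Prod.ext ?_ (Prod.ext ?_ rfl))
  · funext j i
    rcases j with _ | c
    · rfl
    · cases b <;> cases c <;> rfl
  · funext j
    rcases j with _ | c
    · rfl
    · cases b <;> cases c <;> rfl

lemma ok_tri {Q Γ D : Type} {b : Bool} {q : Q} {T : Option Bool → ℕ → Γ} {hl hr hw B : ℕ}
    {out : List D} (h1 : hl ≤ B) (h2 : hr ≤ B) (h3 : hw ≤ B) :
    ok B ((q, T, tri b hl hr hw, out) : Cfg (Option Bool) Q Γ D) := by
  intro j
  rcases j with _ | c
  · exact h1
  · cases b <;> cases c <;> assumption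

section tape

variable {M : ℕ}

/-- tape with given initial contents, blank afterwards -/
def tape (l : List (Sym d p M)) : ℕ → Sym d p M := fun i => l.getD i .blank

lemma tape_mid (P : List (Sym d p M)) (x : Sym d p M) (l : List (Sym d p M)) :
    tape (P ++ x :: l) P.length = x := by
  unfold tape
  simp [List.getD_eq_getElem?_getD]

lemma tape_end (P : List (Sym d p M)) : tape P P.length = .blank := by
  unfold tape
  simp [List.getD_eq_getElem?_getD]

lemma upd_mid (P : List (Sym d p M)) (x y : Sym d p M) (l : List (Sym d p M)) :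
    upd (tape (P ++ x :: l)) P.length y = tape (P ++ y :: l) := by
  funext i
  unfold upd tape
  simp only [List.getD_eq_getElem?_getD]
  by_cases hi : i = P.length
  · subst hi; simp
  · rw [if_neg hi]
    rcases Nat.lt_or_gt_of_ne hi with h | h
    · rw [List.getElem?_append_left h, List.getElem?_append_left h]
    · rw [List.getElem?_append_right (by omega), List.getElem?_append_right (by omega)]
      obtain ⟨k, hk⟩ : ∃ k, i - P.length = k + 1 := ⟨i - P.length - 1, by omega⟩
      rw [hk]
      simp

lemma upd_end (P : List (Sym d p M)) (y : Sym d p M) :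
    upd (tape P) P.length y = tape (P ++ [y]) := by
  funext i
  unfold upd tape
  simp only [List.getD_eq_getElem?_getD]
  by_cases hi : i = P.length
  · subst hi; simp
  · rw [if_neg hi]
    rcases Nat.lt_or_gt_of_ne hi with h | h
    · rw [List.getElem?_append_left h]
    · rw [List.getElem?_append_right (by omega)]
      have h1 : P[i]? = none := List.getElem?_eq_none (by omega)
      have h2 : ([y] : List (Sym d p M))[i - P.length]? = none :=
        List.getElem?_eq_none (by simp; omega)
      rw [h1, h2]

/-- from position `h` on, the tape `T` holds the word `u` followed by blanks -/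
def reads (T : ℕ → Sym d p M) (h : ℕ) (u : List (Fin d)) : Prop :=
  ∃ P : List (Sym d p M), P.length = h ∧ T = tape (P ++ u.map .ltr)

lemma reads.head {T : ℕ → Sym d p M} {h : ℕ} {x : Fin d} {u : List (Fin d)}
    (H : reads T h (x :: u)) : T h = .ltr x := by
  obtain ⟨P, rfl, rfl⟩ := H
  rw [List.map_cons, tape_mid]

lemma reads.tail {T : ℕ → Sym d p M} {h : ℕ} {x : Fin d} {u : List (Fin d)}
    (H : reads T h (x :: u)) : reads T (h + 1) u := by
  obtain ⟨P, rfl, rfl⟩ := H
  exact ⟨P ++ [.ltr x], by simp, by simp⟩

lemma reads.nil {T : ℕ → Sym d p M} {h : ℕ} (H : reads T h []) : T h = .blank := by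
  obtain ⟨P, rfl, rfl⟩ := H
  simp only [List.map_nil, List.append_nil]
  exact tape_end P

end tape

end Pool.Agent.W_MP_5d512e_lc
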