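import Mathlib
import Pool.Agent.W_MP_5d512e_lc.Algo

/-!
Correctness of the phases of the machine.
-/

namespace Pool.Agent.W_MP_5d512e_lc

variable {d p : ℕ}

namespace Dgsm

variable (G : Dgsm d p)

/-- level cell -/
def lc (x : Fin p × BL d G.M) : Sym d p G.M := .lev x.1 x.2

/-- total output of the levels `Ls` (first = output side) fed with `u` -/
def emit : List (Fin p × BL d G.M) → List (Fin d) → List (Fin d)
  | [], u => u
  | x :: Ls, u => x.2.1 ++ G.trans x.1 (emit Ls u)

/-- final contents of the levels -/
def fin : List (Fin p × BL d G.M) → List (Fin d) → List (Fin p × BL d G.M)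
  | [], _ => []
  | x :: Ls, u => (G.st x.1 (G.emit Ls u), eBL) :: fin Ls u

/-- get the next letter out of the levels `Ls` fed with `u` -/
def next : List (Fin p × BL d G.M) → List (Fin d) →
    Option (Fin d × List (Fin p × BL d G.M) × List (Fin d))
  | [], [] => none
  | [], x :: u => some (x, [], u)
  | (q, ⟨x :: l, h⟩) :: Ls, u => some (x, (q, ⟨l, tail_le h⟩) :: Ls, u)
  | (q, ⟨[], _⟩) :: Ls, u =>
    match next Ls u with
    | none => none
    | some (x, Ls', u') => some (G.hd q x, (G.δ q x, G.tl q x) :: Ls', u')

lemma next_some : ∀ (Ls : List (Fin p × BL d G.M)) (u : List (Fin d)) (x : Fin d)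
    (Ls' : List (Fin p × BL d G.M)) (u' : List (Fin d)), G.next Ls u = some (x, Ls', u') →
    G.emit Ls u = x :: G.emit Ls' u' ∧ G.fin Ls u = G.fin Ls' u' ∧ Ls'.length = Ls.length := by
  intro Ls
  induction Ls with
  | nil =>
    intro u x Ls' u' h
    cases u with
    | nil => simp [next] at h
    | cons y u =>
      simp only [next, Option.some.injEq, Prod.mk.injEq] at h
      obtain ⟨rfl, rfl, rfl⟩ := h
      simp [emit, fin]
  | cons c Ls ih =>
    intro u x Ls' u' h
    obtain ⟨q, ⟨l, hl⟩⟩ := c
    cases l with
    | cons y l =>
      simp only [next, Option.some.injEq, Prod.mk.injEq] at h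
      obtain ⟨rfl, rfl, rfl⟩ := h
      simp [emit, fin]
    | nil =>
      rw [next] at h
      cases hn : G.next Ls u with
      | none => rw [hn] at h; simp at h
      | some r =>
        obtain ⟨y, Ls1, u1⟩ := r
        rw [hn] at h
        simp only [Option.some.injEq, Prod.mk.injEq] at h
        obtain ⟨rfl, rfl, rfl⟩ := h
        obtain ⟨h1, h2, h3⟩ := ih u y Ls1 u1 hn
        refine ⟨?_, ?_, ?_⟩
        · simp only [emit, h1, trans, List.nil_append]
          rw [G.hd_tl q y]
          simp
        · simp only [fin, h1, h2, st]
        · simp [h3]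

lemma next_none : ∀ (Ls : List (Fin p × BL d G.M)) (u : List (Fin d)), G.next Ls u = none →
    G.emit Ls u = [] ∧ G.fin Ls u = Ls ∧ u = [] ∧ (∀ c ∈ Ls, c.2 = eBL) := by
  intro Ls
  induction Ls with
  | nil =>
    intro u h
    cases u with
    | nil => simp [emit, fin]
    | cons y u => simp [next] at h
  | cons c Ls ih =>
    intro u h
    obtain ⟨q, ⟨l, hl⟩⟩ := c
    cases l with
    | cons y l => simp [next] at h
    | nil =>
      rw [next] at h
      cases hn : G.next Ls u with
      | some r =>
        obtain ⟨y, Ls1, u1⟩ := r
        rw [hn] at h; simp at h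
      | none =>
        obtain ⟨h1, h2, h3, h4⟩ := ih u hn
        refine ⟨?_, ?_, h3, ?_⟩
        · simp [emit, h1, trans]
        · simp only [fin, h1, h2, st]
          rfl
        · intro c hc
          rw [List.mem_cons] at hc
          rcases hc with rfl | hc
          · rfl
          · exact h4 c hc

variable {B : ℕ}

lemma reach_req_some (b : Bool) (s : Fin p) (out : List (Fin d)) (TR TW : ℕ → Sym d p G.M)
    (hw : ℕ) (hwB : hw ≤ B) :
    ∀ (Ls : List (Fin p × BL d G.M)) (u : List (Fin d)) (x : Fin d)
    (Ls' : List (Fin p × BL d G.M)) (u' : List (Fin d)) (P : List (Sym d p G.M)) (hr : ℕ),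
    G.next Ls u = some (x, Ls', u') → reads TR hr u → P.length + Ls.length ≤ B →
    hr + u.length ≤ B →
    ∃ hr', reads TR hr' u' ∧ hr' + u'.length = hr + u.length ∧
      Reach G.tr B (.req b s, tri b (tape (P ++ Ls.map G.lc)) TR TW, tri b P.length hr hw, out)
        (.feed b s x, tri b (tape (P ++ Ls'.map G.lc)) TR TW, tri b (P.length - 1) hr' hw, out) := by
  intro Ls
  induction Ls with
  | nil =>
    intro u x Ls' u' P hr h hR hB1 hB2
    cases u with
    | nil => simp [next] at h
    | cons y u =>
      simp only [next, Option.some.injEq, Prod.mk.injEq] at h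
      obtain ⟨rfl, rfl, rfl⟩ := h
      refine ⟨hr + 1, hR.tail, by simp only [List.length_cons]; omega, ?_⟩
      simp only [List.map_nil, List.append_nil, List.length_nil, List.length_cons] at *
      apply Reach.one
      · rw [step_eq (q' := .feed b s y) (l' := .blank) (r' := .ltr y) (w' := TW hw)
          (dl := 0) (dr := 2) (dw := 1) (o := none)]
        · rw [upd_self TW hw]
          have h1 : upd (tape P) P.length (.blank : Sym d p G.M) = tape P := by
            have := upd_self (tape P) P.length
            rwa [tape_end] at this
          have h2 : upd TR hr (.ltr y) = TR := by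
            have := upd_self TR hr
            rwa [hR.head] at this
          rw [h1, h2]
          simp
        · rw [tape_end, hR.head]
          simp [tr]
      · exact ok_tri (by omega) (by omega) hwB
      · exact ok_tri (by omega) (by omega) hwB
  | cons c Ls ih =>
    intro u x Ls' u' P hr h hR hB1 hB2
    obtain ⟨q, ⟨l, hl⟩⟩ := c
    simp only [List.length_cons] at hB1
    cases l with
    | cons y l =>
      simp only [next, Option.some.injEq, Prod.mk.injEq] at h
      obtain ⟨rfl, rfl, rfl⟩ := h
      refine ⟨hr, hR, rfl, ?_⟩
      simp only [List.map_cons]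
      apply Reach.one
      · rw [step_eq (q' := .feed b s y) (l' := .lev q ⟨l, tail_le hl⟩) (r' := TR hr)
          (w' := TW hw) (dl := 0) (dr := 1) (dw := 1) (o := none)]
        · rw [upd_self TW hw, upd_self TR hr, upd_mid]
          simp [lc]
        · rw [tape_mid]
          simp [tr, lc]
      · exact ok_tri (by omega) (by omega) hwB
      · exact ok_tri (by omega) (by omega) hwB
    | nil =>
      rw [next] at h
      cases hn : G.next Ls u with
      | none => rw [hn] at h; simp at h
      | some r =>
        obtain ⟨y, Ls1, u1⟩ := r
        rw [hn] at h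
        simp only [Option.some.injEq, Prod.mk.injEq] at h
        obtain ⟨rfl, rfl, rfl⟩ := h
        obtain ⟨hr', hR', hlen, hreach⟩ := ih u y Ls1 u1 (P ++ [G.lc (q, ⟨[], hl⟩)]) hr hn hR
          (by simp only [List.length_append, List.length_cons, List.length_nil]; omega) hB2
        refine ⟨hr', hR', hlen, ?_⟩
        -- first step: move right
        have s1 : step G.tr (.req b s, tri b (tape (P ++ (G.lc (q, ⟨[], hl⟩)) :: Ls.map G.lc)) TR TW,
            tri b P.length hr hw, out)
            = (.req b s, tri b (tape ((P ++ [G.lc (q, ⟨[], hl⟩)]) ++ Ls.map G.lc)) TR TW,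
              tri b (P ++ [G.lc (q, ⟨[], hl⟩)]).length hr hw, out) := by
          rw [step_eq (q' := .req b s) (l' := G.lc (q, ⟨[], hl⟩)) (r' := TR hr)
            (w' := TW hw) (dl := 2) (dr := 1) (dw := 1) (o := none)]
          · rw [upd_self TW hw, upd_self TR hr, upd_mid]
            simp
          · rw [tape_mid]
            simp [tr, lc]
        have s3 : step G.tr (.feed b s y, tri b (tape ((P ++ [G.lc (q, ⟨[], hl⟩)]) ++ Ls1.map G.lc))
            TR TW, tri b ((P ++ [G.lc (q, ⟨[], hl⟩)]).length - 1) hr' hw, out)
            = (.feed b s (G.hd q y), tri b (tape (P ++ (G.lc (G.δ q y, G.tl q y)) :: Ls1.map G.lc))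
              TR TW, tri b (P.length - 1) hr' hw, out) := by
          have e1 : (P ++ [G.lc (q, ⟨[], hl⟩)]).length - 1 = P.length := by simp
          have e2 : (P ++ [G.lc (q, ⟨[], hl⟩)]) ++ Ls1.map G.lc
              = P ++ (G.lc (q, ⟨[], hl⟩)) :: Ls1.map G.lc := by simp
          rw [e1, e2]
          rw [step_eq (q' := .feed b s (G.hd q y)) (l' := G.lc (G.δ q y, G.tl q y)) (r' := TR hr')
            (w' := TW hw) (dl := 0) (dr := 1) (dw := 1) (o := none)]
          · rw [upd_self TW hw, upd_self TR hr', upd_mid]
            simp
          · rw [tape_mid]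
            simp [tr, lc]
        simp only [List.map_cons]
        apply Reach.head
        · exact ok_tri (by omega) (by omega) hwB
        rw [s1]
        refine hreach.trans ?_
        apply Reach.one s3
        · refine ok_tri ?_ (by omega) hwB
          simp only [List.length_append, List.length_cons, List.length_nil]
          omega
        · exact ok_tri (by omega) (by omega) hwB

lemma reach_req_none (b : Bool) (s : Fin p) (out : List (Fin d)) (TR TW : ℕ → Sym d p G.M)
    (hr hw : ℕ) (hR : reads TR hr []) (hrB : hr ≤ B) (hwB : hw ≤ B) :
    ∀ (Ls : List (Fin p × BL d G.M)) (P : List (Sym d p G.M)),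
    (∀ c ∈ Ls, c.2 = eBL) → P.length + Ls.length ≤ B →
      Reach G.tr B (.req b s, tri b (tape (P ++ Ls.map G.lc)) TR TW, tri b P.length hr hw, out)
        (.rew b s .toCmp, tri b (tape (P ++ Ls.map G.lc)) TR TW,
          tri b (P.length + Ls.length) hr hw, out) := by
  intro Ls
  induction Ls with
  | nil =>
    intro P _ hB1
    simp only [List.map_nil, List.append_nil, List.length_nil, Nat.add_zero] at *
    apply Reach.one
    · rw [step_eq (q' := .rew b s .toCmp) (l' := .blank) (r' := .blank) (w' := TW hw)
          (dl := 1) (dr := 1) (dw := 1) (o := none)]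
      · rw [upd_self TW hw]
        have h1 : upd (tape P) P.length (.blank : Sym d p G.M) = tape P := by
          have := upd_self (tape P) P.length
          rwa [tape_end] at this
        have h2 : upd TR hr .blank = TR := by
          have := upd_self TR hr
          rwa [hR.nil] at this
        rw [h1, h2]
        simp
      · rw [tape_end, hR.nil]
        simp [tr]
    · exact ok_tri (by omega) (by omega) hwB
    · exact ok_tri (by omega) (by omega) hwB
  | cons c Ls ih =>
    intro P hc hB1
    simp only [List.length_cons] at hB1
    have hc1 : c.2 = eBL := hc c (by simp)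
    obtain ⟨q, l⟩ := c
    simp only at hc1
    subst hc1
    have := ih (P ++ [G.lc (q, eBL)]) (fun c' hc' => hc c' (by simp [hc']))
      (by simp only [List.length_append, List.length_cons, List.length_nil]; omega)
    have e2 : (P ++ [G.lc (q, eBL)]) ++ Ls.map G.lc = P ++ (G.lc (q, eBL)) :: Ls.map G.lc := by simp
    have e3 : (P ++ [G.lc (q, eBL)]).length + Ls.length = P.length + (Ls.length + 1) := by
      simp only [List.length_append, List.length_cons, List.length_nil]; omega
    rw [e2, e3] at this
    simp only [List.map_cons, List.length_cons]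
    apply Reach.head
    · exact ok_tri (by omega) (by omega) hwB
    have s1 : step G.tr (.req b s, tri b (tape (P ++ (G.lc (q, eBL)) :: Ls.map G.lc)) TR TW,
            tri b P.length hr hw, out)
            = (.req b s, tri b (tape (P ++ (G.lc (q, eBL)) :: Ls.map G.lc)) TR TW,
              tri b (P ++ [G.lc (q, eBL)]).length hr hw, out) := by
      rw [step_eq (q' := .req b s) (l' := G.lc (q, eBL)) (r' := TR hr)
        (w' := TW hw) (dl := 2) (dr := 1) (dw := 1) (o := none)]
      · rw [upd_self TW hw, upd_self TR hr, upd_mid]
        simp
      · rw [tape_mid]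
        simp [tr, lc, eBL]
    rw [s1]
    exact this

/-- The run phase. -/
lemma reach_run (b : Bool) (s : Fin p) (TR TW : ℕ → Sym d p G.M) (hw : ℕ) (hwB : hw ≤ B) :
    ∀ (n : ℕ) (Ls : List (Fin p × BL d G.M)) (u : List (Fin d)) (hr : ℕ) (out : List (Fin d)),
    (G.emit Ls u).length = n → reads TR hr u → 1 + Ls.length ≤ B → hr + u.length ≤ B →
      Reach G.tr B (.req b s, tri b (tape (Sym.mark :: Ls.map G.lc)) TR TW, tri b 1 hr hw, out)
        (.rew b s .toCmp, tri b (tape (Sym.mark :: (G.fin Ls u).map G.lc)) TR TW,
          tri b (1 + Ls.length) (hr + u.length) hw, out ++ G.emit Ls u) := by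
  intro n
  induction n with
  | zero =>
    intro Ls u hr out hn hR hB1 hB2
    cases hnx : G.next Ls u with
    | some r =>
      obtain ⟨x, Ls', u'⟩ := r
      have := (G.next_some Ls u x Ls' u' hnx).1
      rw [this] at hn
      simp at hn
    | none =>
      obtain ⟨h1, h2, h3, h4⟩ := G.next_none Ls u hnx
      subst h3
      rw [h1, h2]
      have := G.reach_req_none (B := B) b s out TR TW hr hw hR (by simpa using hB2) hwB Ls
        [Sym.mark] h4 (by simpa using hB1)
      simpa using this
  | succ n ih =>
    intro Ls u hr out hn hR hB1 hB2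
    cases hnx : G.next Ls u with
    | none =>
      have := (G.next_none Ls u hnx).1
      rw [this] at hn
      simp at hn
    | some r =>
      obtain ⟨x, Ls', u'⟩ := r
      obtain ⟨h1, h2, h3⟩ := G.next_some Ls u x Ls' u' hnx
      obtain ⟨hr', hR', hlen, hreach⟩ := G.reach_req_some (B := B) b s out TR TW hw hwB
        Ls u x Ls' u' [Sym.mark] hr hnx hR (by simpa using hB1) hB2
      have hih := ih Ls' u' hr' (out ++ [x]) (by rw [h1] at hn; simpa using hn) hR'
        (by rw [h3]; exact hB1) (by omega)
      rw [← h2, h3, hlen] at hih
      rw [h1]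
      simp only [List.append_assoc, List.singleton_append] at hih hreach
      refine hreach.trans ?_
      apply Reach.head
      · refine ok_tri ?_ (by omega) hwB
        simp
      have s1 : step G.tr (.feed b s x, tri b (tape (Sym.mark :: Ls'.map G.lc)) TR TW,
          tri b (([Sym.mark] : List (Sym d p G.M)).length - 1) hr' hw, out)
          = (.req b s, tri b (tape (Sym.mark :: Ls'.map G.lc)) TR TW, tri b 1 hr' hw,
            out ++ [x]) := by
        have t0 : tape (Sym.mark :: Ls'.map G.lc) 0 = Sym.mark := rfl
        rw [step_eq (q' := .req b s) (l' := Sym.mark) (r' := TR hr')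
          (w' := TW hw) (dl := 2) (dr := 1) (dw := 1) (o := some x)]
        · rw [upd_self TW hw, upd_self TR hr']
          have h1 : upd (tape (Sym.mark :: Ls'.map G.lc)) 0 Sym.mark
              = tape (Sym.mark :: Ls'.map G.lc) := by
            have := upd_self (tape (Sym.mark :: Ls'.map G.lc)) 0
            rwa [t0] at this
          simp only [List.length_cons, List.length_nil, Nat.zero_add, Nat.sub_self]
          rw [h1]
          simp
        · simp only [List.length_cons, List.length_nil, Nat.zero_add, Nat.sub_self]
          rw [t0]
          simp [tr]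
      rw [s1]
      exact hih

/-- The rewinding phase. -/
lemma reach_rew (b : Bool) (s : Fin p) (nx : Nxt) (T : Option Bool → ℕ → Sym d p G.M)
    (out : List (Fin d)) (hT0 : ∀ j, T j 0 = .mark) (hT : ∀ j i, T j (i + 1) ≠ .mark)
    (hB : 1 ≤ B) (c' : St d p G.M)
    (hc' : c' = match nx with
        | .toCmp => .cmp b s
        | .toReq => .req b s
        | .toSh => .sh b s) :
    ∀ (n hl hr hw : ℕ), hl ≤ n → hr ≤ n → hw ≤ n → hl ≤ B → hr ≤ B → hw ≤ B →
      Reach G.tr B (.rew b s nx, T, tri b hl hr hw, out) (c', T, tri b 1 1 1, out) := by
  have hTt : T = tri b (T none) (T (some b)) (T (some !b)) := by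
    funext j
    rcases j with _ | c
    · rfl
    · cases b <;> cases c <;> rfl
  intro n
  induction n with
  | zero =>
    intro hl hr hw h1 h2 h3 _ _ _
    obtain rfl : hl = 0 := by omega
    obtain rfl : hr = 0 := by omega
    obtain rfl : hw = 0 := by omega
    apply Reach.one
    · rw [hTt]
      rw [step_eq (q' := c') (l' := T none 0) (r' := T (some b) 0)
          (w' := T (some !b) 0) (dl := 2) (dr := 2) (dw := 2) (o := none)]
      · rw [upd_self, upd_self, upd_self]
        simp
      · rw [hc']
        simp only [tr, tri_none, tri_b, tri_nb, hT0, and_self, if_true]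
        cases nx <;> rfl
    · exact ok_tri (by omega) (by omega) (by omega)
    · exact ok_tri (by omega) (by omega) (by omega)
  | succ n ih =>
    intro hl hr hw h1 h2 h3 b1 b2 b3
    by_cases hz : hl = 0 ∧ hr = 0 ∧ hw = 0
    · obtain ⟨rfl, rfl, rfl⟩ := hz
      exact ih 0 0 0 (by omega) (by omega) (by omega) (by omega) (by omega) (by omega)
    · apply Reach.head
      · exact ok_tri b1 b2 b3
      have s1 : step G.tr (.rew b s nx, T, tri b hl hr hw, out)
          = (.rew b s nx, T, tri b (hl - 1) (hr - 1) (hw - 1), out) := by
        conv_lhs => rw [hTt]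
        rw [step_eq (q' := .rew b s nx) (l' := T none hl) (r' := T (some b) hr)
          (w' := T (some !b) hw) (dl := 0) (dr := 0) (dw := 0) (o := none)]
        · rw [upd_self, upd_self, upd_self, ← hTt]
          simp
        · have hne : ¬ (T none hl = Sym.mark ∧ T (some b) hr = Sym.mark ∧
              T (some !b) hw = Sym.mark) := by
            rintro ⟨m1, m2, m3⟩
            apply hz
            refine ⟨?_, ?_, ?_⟩
            · by_contra h
              obtain ⟨i, rfl⟩ : ∃ i, hl = i + 1 := ⟨hl - 1, by omega⟩
              exact hT _ _ m1
            · by_contra h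
              obtain ⟨i, rfl⟩ : ∃ i, hr = i + 1 := ⟨hr - 1, by omega⟩
              exact hT _ _ m2
            · by_contra h
              obtain ⟨i, rfl⟩ : ∃ i, hw = i + 1 := ⟨hw - 1, by omega⟩
              exact hT _ _ m3
          simp only [tr, tri_none, tri_b, tri_nb, hne, if_false]
      rw [s1]
      exact ih _ _ _ (by omega) (by omega) (by omega) (by omega) (by omega) (by omega)

/-- The comparison phase, case: fewer levels than letters; a level is appended. -/
lemma reach_cmp_app (b : Bool) (s : Fin p) (out : List (Fin d)) (TR TW : ℕ → Sym d p G.M)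
    (hw : ℕ) (hwB : hw ≤ B) :
    ∀ (Ls : List (Fin p × BL d G.M)) (u : List (Fin d)) (P : List (Sym d p G.M)) (hr : ℕ),
    reads TR hr u → Ls.length < u.length → P.length + Ls.length ≤ B → hr + u.length ≤ B →
      Reach G.tr B (.cmp b s, tri b (tape (P ++ Ls.map G.lc)) TR TW, tri b P.length hr hw, out)
        (.rew b s .toReq, tri b (tape (P ++ (Ls ++ [(s, eBL)]).map G.lc)) TR TW,
          tri b (P.length + Ls.length) (hr + Ls.length) hw, out) := by
  intro Ls
  induction Ls with
  | nil =>
    intro u P hr hR hlt hB1 hB2
    cases u with
    | nil => simp at hlt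
    | cons x u =>
      simp only [List.map_nil, List.append_nil, List.length_nil, Nat.add_zero, List.nil_append,
        List.map_cons, List.length_cons] at *
      apply Reach.one
      · rw [step_eq (q' := .rew b s .toReq) (l' := .lev s eBL) (r' := .ltr x) (w' := TW hw)
          (dl := 1) (dr := 1) (dw := 1) (o := none)]
        · rw [upd_self TW hw, upd_end]
          have h2 : upd TR hr (.ltr x) = TR := by
            have := upd_self TR hr
            rwa [hR.head] at this
          rw [h2]
          simp [lc]
        · rw [tape_end, hR.head]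
          simp [tr]
      · exact ok_tri (by omega) (by omega) hwB
      · exact ok_tri (by omega) (by omega) hwB
  | cons c Ls ih =>
    intro u P hr hR hlt hB1 hB2
    cases u with
    | nil => simp at hlt
    | cons x u =>
      simp only [List.length_cons] at hlt hB1 hB2
      obtain ⟨q, l⟩ := c
      have := ih u (P ++ [G.lc (q, l)]) (hr + 1) hR.tail (by omega)
        (by simp only [List.length_append, List.length_cons, List.length_nil]; omega) (by omega)
      have e2 : ∀ X : List (Sym d p G.M), (P ++ [G.lc (q, l)]) ++ X = P ++ (G.lc (q, l)) :: X := by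
        intro X; simp
      have e3 : (P ++ [G.lc (q, l)]).length + Ls.length = P.length + (Ls.length + 1) := by
        simp only [List.length_append, List.length_cons, List.length_nil]; omega
      have e4 : hr + 1 + Ls.length = hr + (Ls.length + 1) := by omega
      rw [e2, e2, e3, e4] at this
      simp only [List.map_cons, List.length_cons, List.cons_append]
      apply Reach.head
      · exact ok_tri (by omega) (by omega) hwB
      have s1 : step G.tr (.cmp b s, tri b (tape (P ++ (G.lc (q, l)) :: Ls.map G.lc)) TR TW,
            tri b P.length hr hw, out)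
            = (.cmp b s, tri b (tape (P ++ (G.lc (q, l)) :: Ls.map G.lc)) TR TW,
              tri b (P ++ [G.lc (q, l)]).length (hr + 1) hw, out) := by
        rw [step_eq (q' := .cmp b s) (l' := G.lc (q, l)) (r' := TR hr)
          (w' := TW hw) (dl := 2) (dr := 2) (dw := 1) (o := none)]
        · rw [upd_self TW hw, upd_self TR hr, upd_mid]
          simp
        · rw [tape_mid, hR.head]
          simp [tr, lc]
      rw [s1]
      exact this

/-- The comparison phase, case: as many levels as letters; shift. -/
lemma reach_cmp_sh (b : Bool) (s : Fin p) (out : List (Fin d)) (TR TW : ℕ → Sym d p G.M)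
    (hw : ℕ) (hwB : hw ≤ B) :
    ∀ (Ls : List (Fin p × BL d G.M)) (u : List (Fin d)) (P : List (Sym d p G.M)) (hr : ℕ),
    reads TR hr u → Ls.length = u.length → P.length + Ls.length ≤ B → hr + u.length ≤ B →
      Reach G.tr B (.cmp b s, tri b (tape (P ++ Ls.map G.lc)) TR TW, tri b P.length hr hw, out)
        (.rew b s .toSh, tri b (tape (P ++ Ls.map G.lc)) TR TW,
          tri b (P.length + Ls.length) (hr + Ls.length) hw, out) := by
  intro Ls
  induction Ls with
  | nil =>
    intro u P hr hR hlt hB1 hB2
    cases u with
    | cons x u => simp at hlt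
    | nil =>
      simp only [List.map_nil, List.append_nil, List.length_nil, Nat.add_zero] at *
      apply Reach.one
      · rw [step_eq (q' := .rew b s .toSh) (l' := .blank) (r' := .blank) (w' := TW hw)
          (dl := 1) (dr := 1) (dw := 1) (o := none)]
        · rw [upd_self TW hw]
          have h1 : upd (tape P) P.length (.blank : Sym d p G.M) = tape P := by
            have := upd_self (tape P) P.length
            rwa [tape_end] at this
          have h2 : upd TR hr .blank = TR := by
            have := upd_self TR hr
            rwa [hR.nil] at this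
          rw [h1, h2]
          simp
        · rw [tape_end, hR.nil]
          simp [tr]
      · exact ok_tri (by omega) (by omega) hwB
      · exact ok_tri (by omega) (by omega) hwB
  | cons c Ls ih =>
    intro u P hr hR hlt hB1 hB2
    cases u with
    | nil => simp at hlt
    | cons x u =>
      simp only [List.length_cons] at hlt hB1 hB2
      obtain ⟨q, l⟩ := c
      have := ih u (P ++ [G.lc (q, l)]) (hr + 1) hR.tail (by omega)
        (by simp only [List.length_append, List.length_cons, List.length_nil]; omega) (by omega)
      have e2 : ∀ X : List (Sym d p G.M), (P ++ [G.lc (q, l)]) ++ X = P ++ (G.lc (q, l)) :: X := by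
        intro X; simp
      have e3 : (P ++ [G.lc (q, l)]).length + Ls.length = P.length + (Ls.length + 1) := by
        simp only [List.length_append, List.length_cons, List.length_nil]; omega
      have e4 : hr + 1 + Ls.length = hr + (Ls.length + 1) := by omega
      rw [e2, e3, e4] at this
      simp only [List.map_cons, List.length_cons]
      apply Reach.head
      · exact ok_tri (by omega) (by omega) hwB
      have s1 : step G.tr (.cmp b s, tri b (tape (P ++ (G.lc (q, l)) :: Ls.map G.lc)) TR TW,
            tri b P.length hr hw, out)
            = (.cmp b s, tri b (tape (P ++ (G.lc (q, l)) :: Ls.map G.lc)) TR TW,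
              tri b (P ++ [G.lc (q, l)]).length (hr + 1) hw, out) := by
        rw [step_eq (q' := .cmp b s) (l' := G.lc (q, l)) (r' := TR hr)
          (w' := TW hw) (dl := 2) (dr := 2) (dw := 1) (o := none)]
        · rw [upd_self TW hw, upd_self TR hr, upd_mid]
          simp
        · rw [tape_mid, hR.head]
          simp [tr, lc]
      rw [s1]
      exact this

/-- Writing a bounded word on the other row tape. -/
lemma reach_shw (b : Bool) (s : Fin p) (out : List (Fin d)) (TL TR : ℕ → Sym d p G.M)
    (hl hr : ℕ) (hlB : hl ≤ B) (hrB : hr ≤ B) :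
    ∀ (l : BL d G.M) (WP junk : List (Sym d p G.M)), WP.length + l.1.length ≤ B →
      Reach G.tr B (.shw b s l, tri b TL TR (tape (WP ++ junk)), tri b hl hr WP.length, out)
        (.sh b s, tri b TL TR (tape (WP ++ l.1.map .ltr ++ junk.drop l.1.length)),
          tri b hl hr (WP.length + l.1.length), out) := by
  rintro ⟨l, hl'⟩
  induction l with
  | nil =>
    intro WP junk hB1
    simp only [List.map_nil, List.append_nil, List.length_nil, List.drop_zero, Nat.add_zero] at *
    apply Reach.one
    · rw [step_eq (q' := .sh b s) (l' := TL hl) (r' := TR hr) (w' := tape (WP ++ junk) WP.length)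
          (dl := 1) (dr := 1) (dw := 1) (o := none)]
      · rw [upd_self, upd_self, upd_self]
        simp
      · simp [tr]
    · exact ok_tri hlB hrB hB1
    · exact ok_tri hlB hrB hB1
  | cons x l ih =>
    intro WP junk hB1
    simp only [List.length_cons] at hB1
    have := ih (tail_le hl') (WP ++ [.ltr x]) (junk.drop 1)
      (by simp only [List.length_append, List.length_cons, List.length_nil]; omega)
    have e1 : (WP ++ [Sym.ltr x]).length + l.length = WP.length + (l.length + 1) := by
      simp only [List.length_append, List.length_cons, List.length_nil]; omega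
    have e2 : WP ++ [Sym.ltr x] ++ l.map .ltr ++ (junk.drop 1).drop l.length
        = WP ++ (x :: l).map .ltr ++ junk.drop (x :: l).length := by
      simp
    simp only [e1, e2] at this
    apply Reach.head
    · exact ok_tri hlB hrB (by omega)
    have s1 : step G.tr (.shw b s ⟨x :: l, hl'⟩, tri b TL TR (tape (WP ++ junk)),
        tri b hl hr WP.length, out)
        = (.shw b s ⟨l, tail_le hl'⟩, tri b TL TR (tape (WP ++ [Sym.ltr x] ++ junk.drop 1)),
          tri b hl hr (WP ++ [Sym.ltr x]).length, out) := by
      rw [step_eq (q' := .shw b s ⟨l, tail_le hl'⟩) (l' := TL hl) (r' := TR hr) (w' := .ltr x)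
          (dl := 1) (dr := 1) (dw := 2) (o := none)]
      · rw [upd_self, upd_self]
        have h1 : upd (tape (WP ++ junk)) WP.length (Sym.ltr x)
            = tape (WP ++ [Sym.ltr x] ++ junk.drop 1) := by
          cases junk with
          | nil => simp [upd_end]
          | cons y junk => simp [upd_mid]
        rw [h1]
        simp
      · simp [tr]
    rw [s1]
    exact this

/-- The shift phase. -/
lemma reach_sh (b : Bool) (out : List (Fin d)) (TL TR : ℕ → Sym d p G.M)
    (hl : ℕ) (hlB : hl ≤ B) :
    ∀ (u : List (Fin d)) (s : Fin p) (hr : ℕ) (WP junk : List (Sym d p G.M)), reads TR hr u →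
      junk.length ≤ (G.trans s u).length → WP.length + (G.trans s u).length ≤ B →
      hr + u.length ≤ B →
      Reach G.tr B (.sh b s, tri b TL TR (tape (WP ++ junk)), tri b hl hr WP.length, out)
        (.rew (!b) (G.st s u) .toReq, tri b TL TR (tape (WP ++ (G.trans s u).map .ltr)),
          tri b hl (hr + u.length) (WP.length + (G.trans s u).length), out) := by
  intro u
  induction u with
  | nil =>
    intro s hr WP junk hR hj hB1 hB2
    simp only [trans, st, List.length_nil, List.map_nil, List.append_nil, Nat.add_zero] at *
    have hj0 : junk = [] := List.length_eq_zero_iff.mp (by omega)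
    subst hj0
    simp only [List.append_nil]
    apply Reach.one
    · rw [step_eq (q' := .rew (!b) s .toReq) (l' := TL hl) (r' := .blank)
          (w' := tape WP WP.length) (dl := 1) (dr := 1) (dw := 1) (o := none)]
      · have h2 : upd TR hr .blank = TR := by
          have := upd_self TR hr
          rwa [hR.nil] at this
        rw [upd_self, upd_self, h2]
        simp
      · rw [hR.nil]
        simp [tr]
    · exact ok_tri hlB hB2 hB1
    · exact ok_tri hlB hB2 hB1
  | cons x u ih =>
    intro s hr WP junk hR hj hB1 hB2
    simp only [trans, st, List.length_append, List.length_cons] at hj hB1 hB2 ⊢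
    have s1 : step G.tr (.sh b s, tri b TL TR (tape (WP ++ junk)), tri b hl hr WP.length, out)
        = (.shw b (G.δ s x) ⟨G.out s x, G.hM s x⟩, tri b TL TR (tape (WP ++ junk)),
          tri b hl (hr + 1) WP.length, out) := by
      rw [step_eq (q' := .shw b (G.δ s x) ⟨G.out s x, G.hM s x⟩) (l' := TL hl) (r' := .ltr x)
          (w' := tape (WP ++ junk) WP.length) (dl := 1) (dr := 2) (dw := 1) (o := none)]
      · have h2 : upd TR hr (.ltr x) = TR := by
          have := upd_self TR hr
          rwa [hR.head] at this
        rw [upd_self, upd_self, h2]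
        simp
      · rw [hR.head]
        simp [tr]
    apply Reach.head
    · exact ok_tri hlB (by omega) (by omega)
    rw [s1]
    have h3 := G.reach_shw (B := B) b (G.δ s x) out TL TR hl (hr + 1) hlB (by omega)
      ⟨G.out s x, G.hM s x⟩ WP junk (by simp only; omega)
    refine h3.trans ?_
    have h4 := ih (G.δ s x) (hr + 1) (WP ++ (G.out s x).map .ltr) (junk.drop (G.out s x).length)
      hR.tail (by rw [List.length_drop]; omega)
      (by simp only [List.length_append, List.length_map]; omega) (by omega)
    simp only [List.length_append, List.length_map] at h4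
    have e1 : hr + 1 + u.length = hr + (u.length + 1) := by omega
    have e2 : WP.length + (G.out s x).length + (G.trans (G.δ s x) u).length
        = WP.length + ((G.out s x).length + (G.trans (G.δ s x) u).length) := by omega
    rw [e1, e2] at h4
    simpa using h4

/-- The initial phase. -/
lemma reach_ini (TL TW : ℕ → Sym d p G.M) (hl hw : ℕ) (hlB : hl ≤ B) (hwB : hw ≤ B) :
    ∀ (l : BL d G.M) (WP : List (Sym d p G.M)) (out : List (Fin d)),
      WP.length + l.1.length ≤ B →
      Reach G.tr B (.ini l, tri false TL (tape WP) TW, tri false hl WP.length hw, out)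
        (.rew false (G.δ G.q0 G.a) .toCmp, tri false TL (tape (WP ++ l.1.map .ltr)) TW,
          tri false hl (WP.length + l.1.length) hw, out ++ l.1) := by
  rintro ⟨l, hl'⟩
  induction l with
  | nil =>
    intro WP out hB1
    simp only [List.map_nil, List.append_nil, List.length_nil, Nat.add_zero] at *
    apply Reach.one
    · rw [step_eq (q' := .rew false (G.δ G.q0 G.a) .toCmp) (l' := TL hl)
          (r' := tape WP WP.length) (w' := TW hw) (dl := 1) (dr := 1) (dw := 1) (o := none)]
      · rw [upd_self, upd_self, upd_self]
        simp
      · simp [tr]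
    · exact ok_tri hlB hB1 hwB
    · exact ok_tri hlB hB1 hwB
  | cons x l ih =>
    intro WP out hB1
    simp only [List.length_cons] at hB1
    have := ih (tail_le hl') (WP ++ [.ltr x]) (out ++ [x])
      (by simp only [List.length_append, List.length_cons, List.length_nil]; omega)
    have e1 : (WP ++ [Sym.ltr x]).length + l.length = WP.length + (l.length + 1) := by
      simp only [List.length_append, List.length_cons, List.length_nil]; omega
    have e2 : WP ++ [Sym.ltr x] ++ l.map .ltr = WP ++ (x :: l).map .ltr := by
      simp
    have e3 : out ++ [x] ++ l = out ++ (x :: l) := by simp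
    simp only [e1, e2, e3] at this
    apply Reach.head
    · exact ok_tri hlB (by omega) hwB
    have s1 : step G.tr (.ini ⟨x :: l, hl'⟩, tri false TL (tape WP) TW,
        tri false hl WP.length hw, out)
        = (.ini ⟨l, tail_le hl'⟩, tri false TL (tape (WP ++ [Sym.ltr x])) TW,
          tri false hl (WP ++ [Sym.ltr x]).length hw, out ++ [x]) := by
      rw [step_eq (q' := .ini ⟨l, tail_le hl'⟩) (l' := TL hl) (r' := .ltr x) (w' := TW hw)
          (dl := 1) (dr := 2) (dw := 1) (o := some x)]
      · rw [upd_self, upd_self, upd_end]
        simp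
      · simp only [tr, tri_none]
        have : tri false (TL hl) (tape WP WP.length) (TW hw) (some true) = TW hw := rfl
        rw [this]
    rw [s1]
    exact this

end Dgsm

end Pool.Agent.W_MP_5d512e_lc
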