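import Mathlib
import Pool.Agent.W_MP_5d512e_lc.Run

/-!
The machine generates the word, in space `O(min(sqrt n, iterations, last row))`.
-/

namespace Pool.Agent.W_MP_5d512e_lc

variable {d p : ℕ}

namespace Dgsm

variable (G : Dgsm d p)

lemma trans_append : ∀ (u v : List (Fin d)) (q : Fin p),
    G.trans q (u ++ v) = G.trans q u ++ G.trans (G.st q u) v := by
  intro u
  induction u with
  | nil => intro v q; simp [trans, st]
  | cons x u ih => intro v q; simp [trans, st, ih]

lemma st_append : ∀ (u v : List (Fin d)) (q : Fin p),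
    G.st q (u ++ v) = G.st (G.st q u) v := by
  intro u
  induction u with
  | nil => intro v q; simp [st]
  | cons x u ih => intro v q; simp [st, ih]

/-- the rows: `row k` is what the `(k+1)`-st iteration appends -/
def rs : ℕ → List (Fin d) × Fin p
  | 0 => (G.r0, G.δ G.q0 G.a)
  | k + 1 => (G.trans (rs k).2 (rs k).1, G.st (rs k).2 (rs k).1)

def row (k : ℕ) : List (Fin d) := (G.rs k).1
def sg (k : ℕ) : Fin p := (G.rs k).2

lemma row_succ (k : ℕ) : G.row (k + 1) = G.trans (G.sg k) (G.row k) := rfl
lemma sg_succ (k : ℕ) : G.sg (k + 1) = G.st (G.sg k) (G.row k) := rfl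

/-- iterates -/
def W (k : ℕ) : List (Fin d) := (G.trans G.q0)^[k] [G.a]

lemma W_aux (k : ℕ) : G.W (k + 1) = G.W k ++ G.row k ∧ G.st G.q0 (G.W k) = G.sg k := by
  induction k with
  | zero =>
    constructor
    · simp only [W, Function.iterate_succ_apply', Function.iterate_zero, id]
      simp [trans, row, rs, G.hr0]
    · simp [W, st, sg, rs]
  | succ k ih =>
    obtain ⟨h1, h2⟩ := ih
    constructor
    · have : G.W (k + 2) = G.trans G.q0 (G.W (k + 1)) := by
        simp only [W]
        rw [Function.iterate_succ_apply']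
      rw [this]
      conv_lhs => rw [h1]
      rw [trans_append, h2, row_succ]
      congr 1
      simp only [W]
      rw [Function.iterate_succ_apply']
    · rw [h1, st_append, h2, sg_succ]

lemma W_succ (k : ℕ) : G.W (k + 1) = G.W k ++ G.row k := (G.W_aux k).1

/-- levels after a run -/
def up (k : ℕ) : ℕ → List (Fin p × BL d G.M)
  | 0 => []
  | D + 1 => (G.sg (k + D + 1), eBL) :: up k D

/-- levels before a run -/
def down (k : ℕ) : ℕ → List (Fin p × BL d G.M)
  | 0 => []
  | D + 1 => (G.sg (k + D), eBL) :: down k D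

lemma up_length (k D : ℕ) : (G.up k D).length = D := by
  induction D with
  | zero => rfl
  | succ D ih => simp [up, ih]

lemma down_length (k D : ℕ) : (G.down k D).length = D := by
  induction D with
  | zero => rfl
  | succ D ih => simp [down, ih]

lemma up_eq (k D : ℕ) : G.up k D = G.down (k + 1) D := by
  induction D with
  | zero => rfl
  | succ D ih =>
    simp only [up, down, ih]
    have : k + D + 1 = k + 1 + D := by omega
    rw [this]

lemma down_succ (k D : ℕ) : G.up k D ++ [(G.sg k, eBL)] = G.down k (D + 1) := by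
  induction D with
  | zero => rfl
  | succ D ih =>
    have h : G.down k (D + 1 + 1) = (G.sg (k + (D + 1)), eBL) :: G.down k (D + 1) := rfl
    rw [h, ← ih]
    rfl

lemma emit_down (k D : ℕ) : G.emit (G.down k D) (G.row k) = G.row (k + D) := by
  induction D with
  | zero => rfl
  | succ D ih =>
    simp only [down, emit, ih]
    rw [← Nat.add_assoc, row_succ]
    simp [eBL]

lemma fin_down (k D : ℕ) : G.fin (G.down k D) (G.row k) = G.up k D := by
  induction D with
  | zero => rfl
  | succ D ih =>
    simp only [down, fin, up, ih, emit_down]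
    rw [sg_succ]

/-- contents of the three tapes -/
def lt (k D : ℕ) : ℕ → Sym d p G.M := tape (Sym.mark :: (G.up k D).map G.lc)
def ld (k D : ℕ) : ℕ → Sym d p G.M := tape (Sym.mark :: (G.down k D).map G.lc)
def rt (u : List (Fin d)) : ℕ → Sym d p G.M := tape (Sym.mark :: u.map .ltr)

lemma tape_ne_mark {M : ℕ} (l : List (Sym d p M)) (h : ∀ x ∈ l, x ≠ .mark) (i : ℕ) :
    tape (Sym.mark :: l) (i + 1) ≠ .mark := by
  unfold tape
  simp only [List.getD_eq_getElem?_getD, List.getElem?_cons_succ]
  cases hi : l[i]? with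
  | none => simp
  | some x =>
    simp only [Option.getD_some]
    exact h x (List.mem_of_getElem? hi)

lemma tape_zero {M : ℕ} (l : List (Sym d p M)) : tape (Sym.mark :: l) 0 = .mark := rfl

lemma lc_ne (l : List (Fin p × BL d G.M)) : ∀ x ∈ l.map G.lc, x ≠ .mark := by
  intro x hx
  rw [List.mem_map] at hx
  obtain ⟨c, _, rfl⟩ := hx
  simp [lc]

lemma ltr_ne {M : ℕ} (l : List (Fin d)) : ∀ x ∈ l.map (Sym.ltr : Fin d → Sym d p M), x ≠ .mark := by
  intro x hx
  rw [List.mem_map] at hx
  obtain ⟨c, _, rfl⟩ := hx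
  simp

lemma rt_reads (u : List (Fin d)) : reads (G.rt u) 1 u := ⟨[.mark], rfl, rfl⟩

variable {B : ℕ}

/-- rewinding, specialised -/
lemma rew' (b : Bool) (s : Fin p) (nx : Nxt) (c' : St d p G.M)
    (hc' : c' = match nx with
        | .toCmp => .cmp b s
        | .toReq => .req b s
        | .toSh => .sh b s)
    (Ls : List (Fin p × BL d G.M)) (u j : List (Fin d)) (hl hr hw : ℕ) (out : List (Fin d))
    (hB : 1 ≤ B) (h1 : hl ≤ B) (h2 : hr ≤ B) (h3 : hw ≤ B) :
    Reach G.tr B (.rew b s nx, tri b (tape (Sym.mark :: Ls.map G.lc)) (G.rt u) (G.rt j),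
        tri b hl hr hw, out)
      (c', tri b (tape (Sym.mark :: Ls.map G.lc)) (G.rt u) (G.rt j), tri b 1 1 1, out) := by
  apply G.reach_rew b s nx _ out _ _ hB c' hc' (hl + hr + hw) hl hr hw (by omega) (by omega)
    (by omega) h1 h2 h3
  · intro j'
    rcases j' with _ | c
    · rfl
    · cases b <;> cases c <;> rfl
  · intro j' i
    have t1 := tape_ne_mark _ (G.lc_ne Ls) i
    have t2 := tape_ne_mark (M := G.M) (p := p) _ (ltr_ne u) i
    have t3 := tape_ne_mark (M := G.M) (p := p) _ (ltr_ne j) i
    rcases j' with _ | c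
    · exact t1
    · cases b <;> cases c <;> first | exact t2 | exact t3

/-- loop head configuration -/
def LH (b : Bool) (k D : ℕ) (j out : List (Fin d)) :
    Cfg (Option Bool) (St d p G.M) (Sym d p G.M) (Fin d) :=
  (.cmp b (G.sg k), tri b (tape (Sym.mark :: (G.up k D).map G.lc)) (G.rt (G.row k)) (G.rt j),
    tri b 1 1 1, out)

lemma iter_app (b : Bool) (k D : ℕ) (j : List (Fin d)) (hD : D < (G.row k).length)
    (hB1 : D + 2 ≤ B) (hB2 : (G.row k).length + 1 ≤ B) :
    Reach G.tr B (G.LH b k D j (G.W (k + D + 1))) (G.LH b k (D + 1) j (G.W (k + D + 2))) := by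
  have h1 := G.reach_cmp_app (B := B) b (G.sg k) (G.W (k + D + 1)) (G.rt (G.row k)) (G.rt j) 1
    (by omega) (G.up k D) (G.row k) [Sym.mark] 1 (G.rt_reads _) (by rw [up_length]; exact hD)
    (by rw [up_length]; simp only [List.length_cons, List.length_nil]; omega) (by omega)
  rw [up_length, down_succ] at h1
  have h2 := G.rew' (B := B) b (G.sg k) .toReq (.req b (G.sg k)) rfl (G.down k (D + 1))
    (G.row k) j (1 + D) (1 + D) 1 (G.W (k + D + 1)) (by omega) (by omega) (by omega) (by omega)
  have h3 := G.reach_run (B := B) b (G.sg k) (G.rt (G.row k)) (G.rt j) 1 (by omega) _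
    (G.down k (D + 1)) (G.row k) 1 (G.W (k + D + 1)) rfl (G.rt_reads _)
    (by rw [down_length]; omega) (by omega)
  rw [down_length, fin_down, emit_down] at h3
  have h4 := G.rew' (B := B) b (G.sg k) .toCmp (.cmp b (G.sg k)) rfl (G.up k (D + 1))
    (G.row k) j (1 + (D + 1)) (1 + (G.row k).length) 1
    (G.W (k + D + 1) ++ G.row (k + (D + 1))) (by omega) (by omega) (by omega) (by omega)
  have h5 : G.W (k + D + 1) ++ G.row (k + (D + 1)) = G.W (k + D + 2) := by
    rw [G.W_succ (k + D + 1)]
    rfl
  rw [h5] at h3 h4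
  exact ((h1.trans h2).trans h3).trans h4

lemma iter_sh (b : Bool) (k D : ℕ) (j : List (Fin d)) (hD : D = (G.row k).length)
    (hj : j.length ≤ (G.row (k + 1)).length)
    (hB1 : D + 1 ≤ B) (hB2 : (G.row (k + 1)).length + 1 ≤ B) :
    Reach G.tr B (G.LH b k D j (G.W (k + D + 1)))
      (G.LH (!b) (k + 1) D (G.row k) (G.W (k + D + 2))) := by
  have h1 := G.reach_cmp_sh (B := B) b (G.sg k) (G.W (k + D + 1)) (G.rt (G.row k)) (G.rt j) 1
    (by omega) (G.up k D) (G.row k) [Sym.mark] 1 (G.rt_reads _) (by rw [up_length]; exact hD)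
    (by rw [up_length]; simp only [List.length_cons, List.length_nil]; omega) (by omega)
  rw [up_length] at h1
  have h2 := G.rew' (B := B) b (G.sg k) .toSh (.sh b (G.sg k)) rfl (G.up k D)
    (G.row k) j (1 + D) (1 + D) 1 (G.W (k + D + 1)) (by omega) (by omega) (by omega) (by omega)
  have h3 := G.reach_sh (B := B) b (G.W (k + D + 1))
    (tape (Sym.mark :: (G.up k D).map G.lc)) (G.rt (G.row k)) 1 (by omega) (G.row k) (G.sg k) 1
    [Sym.mark] (j.map .ltr) (G.rt_reads _)
    (by rw [List.length_map, ← row_succ]; exact hj)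
    (by rw [← row_succ]; simp only [List.length_cons, List.length_nil]; omega) (by omega)
  rw [← row_succ, ← sg_succ] at h3
  have h4 := G.rew' (B := B) (!b) (G.sg (k + 1)) .toReq (.req (!b) (G.sg (k + 1))) rfl
    (G.up k D) (G.row (k + 1)) (G.row k) 1 (1 + (G.row (k + 1)).length) (1 + (G.row k).length)
    (G.W (k + D + 1)) (by omega) (by omega) (by omega) (by omega)
  have h5 := G.reach_run (B := B) (!b) (G.sg (k + 1)) (G.rt (G.row (k + 1))) (G.rt (G.row k)) 1
    (by omega) _ (G.down (k + 1) D) (G.row (k + 1)) 1 (G.W (k + D + 1)) rfl (G.rt_reads _)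
    (by rw [down_length]; omega) (by omega)
  rw [down_length, fin_down, emit_down, ← up_eq] at h5
  have h6 := G.rew' (B := B) (!b) (G.sg (k + 1)) .toCmp (.cmp (!b) (G.sg (k + 1))) rfl
    (G.up (k + 1) D)
    (G.row (k + 1)) (G.row k) (1 + D) (1 + (G.row (k + 1)).length) 1
    (G.W (k + D + 1) ++ G.row (k + 1 + D)) (by omega) (by omega) (by omega) (by omega)
  have h7 : G.W (k + D + 1) ++ G.row (k + 1 + D) = G.W (k + D + 2) := by
    rw [G.W_succ (k + D + 1)]
    congr 2
    omega
  rw [h7] at h5 h6
  have h34 : Reach G.tr B (.sh b (G.sg k), tri b (tape (Sym.mark :: (G.up k D).map G.lc))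
      (G.rt (G.row k)) (G.rt j), tri b 1 1 1, G.W (k + D + 1))
      (.req (!b) (G.sg (k + 1)), tri (!b) (tape (Sym.mark :: (G.up k D).map G.lc))
      (G.rt (G.row (k + 1))) (G.rt (G.row k)), tri (!b) 1 1 1, G.W (k + D + 1)) := by
    refine Reach.trans ?_ h4
    rw [← tri_flip b, ← tri_flip b]
    exact h3
  exact (((h1.trans h2).trans h34).trans h5).trans h6

/-- start configuration -/
def c0 : Cfg (Option Bool) (St d p G.M) (Sym d p G.M) (Fin d) :=
  (.start, fun _ _ => .blank, fun _ => 0, [])

lemma r0_le : G.r0.length ≤ G.M := by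
  have := G.hM G.q0 G.a
  rw [G.hr0] at this
  exact tail_le this

lemma reach_start (hB : G.M + 2 ≤ B) :
    Reach G.tr B G.c0 (G.LH false 0 0 [] (G.W 1)) := by
  have hr := G.r0_le
  have s1 : step G.tr G.c0 = (.ini ⟨G.r0, G.r0_le⟩, tri false (tape [Sym.mark]) (tape [Sym.mark])
      (tape [Sym.mark]), tri false 1 1 1, [G.a]) := by
    have e0 : G.c0 = (.start, tri false (tape []) (tape []) (tape []), tri false 0 0 0, []) := by
      unfold c0
      refine Prod.ext rfl (Prod.ext ?_ (Prod.ext ?_ rfl))
      · funext j i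
        rcases j with _ | c
        · simp [tri, tape]
        · cases c <;> simp [tri, tape]
      · funext j
        rcases j with _ | c
        · rfl
        · cases c <;> rfl
    rw [e0]
    rw [step_eq (q' := .ini ⟨G.r0, G.r0_le⟩) (l' := .mark) (r' := .mark)
      (w' := .mark) (dl := 2) (dr := 2) (dw := 2) (o := some G.a)]
    · have : upd (tape ([] : List (Sym d p G.M))) 0 Sym.mark = tape [Sym.mark] :=
        upd_end ([] : List (Sym d p G.M)) Sym.mark
      rw [this]
      simp
    · simp [tr]
  apply Reach.head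
  · intro j; exact Nat.zero_le _
  rw [s1]
  have h1 := G.reach_ini (B := B) (tape [Sym.mark]) (tape [Sym.mark]) 1 1 (by omega) (by omega)
    ⟨G.r0, G.r0_le⟩ [Sym.mark] [G.a]
    (by simp only [List.length_cons, List.length_nil]; omega)
  have h2 := G.rew' (B := B) false (G.sg 0) .toCmp (.cmp false (G.sg 0)) rfl []
    (G.row 0) [] 1 (1 + G.r0.length) 1 (G.W 1) (by omega) (by omega) (by omega) (by omega)
  have h3 : G.W 1 = [G.a] ++ G.r0 := by
    rw [G.W_succ 0]
    rfl
  refine Reach.trans ?_ h2
  rw [h3]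
  exact h1

lemma trans_length (u : List (Fin d)) : ∀ q, u.length ≤ (G.trans q u).length ∧
    (G.trans q u).length ≤ G.M * u.length := by
  induction u with
  | nil => intro q; simp [trans]
  | cons x u ih =>
    intro q
    obtain ⟨h1, h2⟩ := ih (G.δ q x)
    have h3 : 0 < (G.out q x).length := List.length_pos_of_ne_nil (G.ne q x)
    have h4 := G.hM q x
    simp only [trans, List.length_append, List.length_cons]
    constructor
    · omega
    · nlinarith

lemma row_le_succ (k : ℕ) : (G.row k).length ≤ (G.row (k + 1)).length := by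
  rw [row_succ]
  exact (G.trans_length _ _).1

lemma row_mono {k l : ℕ} (h : k ≤ l) : (G.row k).length ≤ (G.row l).length := by
  induction l with
  | zero =>
    obtain rfl : k = 0 := by omega
    exact le_rfl
  | succ l ih =>
    by_cases hk : k ≤ l
    · exact (ih hk).trans (G.row_le_succ l)
    · obtain rfl : k = l + 1 := by omega
      exact le_rfl

lemma row_succ_le (k : ℕ) : (G.row (k + 1)).length ≤ G.M * (G.row k).length := by
  rw [row_succ]
  exact (G.trans_length _ _).2

lemma W_length_succ (k : ℕ) : (G.W (k + 1)).length = (G.W k).length + (G.row k).length := by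
  rw [W_succ, List.length_append]

lemma W_mono {k l : ℕ} (h : k ≤ l) : (G.W k).length ≤ (G.W l).length := by
  induction l with
  | zero =>
    obtain rfl : k = 0 := by omega
    exact le_rfl
  | succ l ih =>
    rw [W_length_succ]
    by_cases hk : k ≤ l
    · exact (ih hk).trans (Nat.le_add_right _ _)
    · obtain rfl : k = l + 1 := by omega
      rw [W_length_succ]

lemma W_ge (k D : ℕ) : (D + 1) * (G.row k).length ≤ (G.W (k + D + 1)).length := by
  induction D with
  | zero =>
    rw [Nat.add_zero, W_length_succ]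
    omega
  | succ D ih =>
    have h1 : k + (D + 1) + 1 = (k + D + 1) + 1 := by omega
    rw [h1, W_length_succ]
    have h2 := G.row_mono (k := k) (l := k + D + 1) (by omega)
    nlinarith

lemma W_ge_succ (hne : G.r0 ≠ []) (k : ℕ) : k + 1 ≤ (G.W k).length := by
  induction k with
  | zero => simp [W]
  | succ k ih =>
    rw [W_length_succ]
    have h1 : 0 < (G.row 0).length := List.length_pos_of_ne_nil hne
    have h2 := G.row_mono (k := 0) (l := k) (by omega)
    omega

/-- the run of the machine -/
def conf (t : ℕ) : Cfg (Option Bool) (St d p G.M) (Sym d p G.M) (Fin d) := (step G.tr)^[t] G.c0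

lemma out_le (t : ℕ) : (G.conf t).2.2.2.length ≤ t := by
  induction t with
  | zero => simp [conf, c0]
  | succ t ih =>
    unfold conf at ih ⊢
    rw [Function.iterate_succ_apply']
    have := out_length_step G.tr ((step G.tr)^[t] G.c0)
    omega

/-- space bound at time `t` -/
def Bd (t : ℕ) : Prop :=
  ok (2 * (G.M + 2)) (G.conf t) ∨
  ∃ k D : ℕ, D ≤ (G.row k).length ∧ (G.W (k + D + 1)).length ≤ (G.conf (t - 1)).2.2.2.length ∧
    ok ((G.M + 2) * (D + 2)) (G.conf t)

lemma main_aux (hne : G.r0 ≠ []) : ∀ i : ℕ, ∃ (N : ℕ) (b : Bool) (k D : ℕ) (j : List (Fin d)),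
    k + D = i ∧ D ≤ (G.row k).length ∧ (G.row k).length ≤ G.M * (D + 1) ∧
    j.length ≤ (G.row k).length ∧ G.conf N = G.LH b k D j (G.W (i + 1)) ∧
    ∀ t ≤ N, G.Bd t := by
  have hM1 : 1 ≤ G.M := by
    have h1 := G.hM G.q0 G.a
    rw [G.hr0] at h1
    simp only [List.length_cons] at h1
    omega
  intro i
  induction i with
  | zero =>
    obtain ⟨N, hN, hok⟩ := (G.reach_start (B := 2 * (G.M + 2)) (by omega)).iter
    refine ⟨N, false, 0, 0, [], rfl, Nat.zero_le _, ?_, Nat.zero_le _, hN, ?_⟩
    · have := G.r0_le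
      simp only [row, rs]
      omega
    · intro t ht
      exact Or.inl (hok t ht)
  | succ i ih =>
    obtain ⟨N, b, k, D, j, hkD, hD, hrow, hj, hconf, hbd⟩ := ih
    have key : ∀ (c' : Cfg (Option Bool) (St d p G.M) (Sym d p G.M) (Fin d)),
        Reach G.tr ((G.M + 2) * (D + 2)) (G.LH b k D j (G.W (i + 1))) c' →
        ∃ N', G.conf N' = c' ∧ ∀ t ≤ N', G.Bd t := by
      intro c' hc'
      obtain ⟨N1, hN1, hok1⟩ := hc'.iter
      refine ⟨N1 + N, ?_, ?_⟩
      · unfold conf at hconf ⊢
        rw [Function.iterate_add_apply, hconf]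
        exact hN1
      · intro t ht
        by_cases htN : t ≤ N
        · exact hbd t htN
        · right
          refine ⟨k, D, hD, ?_, ?_⟩
          · have h1 := out_prefix_iter G.tr G.c0 N (t - 1) (by omega)
            have h2 := h1.length_le
            have h3 : ((step G.tr)^[N] G.c0).2.2.2 = G.W (i + 1) := by
              unfold conf at hconf
              rw [hconf]
              rfl
            rw [h3] at h2
            rw [hkD]
            exact h2
          · obtain ⟨m, rfl⟩ : ∃ m, t = m + N := ⟨t - N, by omega⟩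
            unfold conf at hconf ⊢
            rw [Function.iterate_add_apply, hconf]
            exact hok1 m (by omega)
    have hkD1 : k + D + 1 = i + 1 := by omega
    have hkD2 : k + D + 2 = i + 1 + 1 := by omega
    have hMD : G.M * (D + 1) + 1 ≤ (G.M + 2) * (D + 2) := by nlinarith
    have hD2 : D + 2 ≤ (G.M + 2) * (D + 2) := by nlinarith
    rcases Nat.lt_or_ge D (G.row k).length with hlt | hge
    · have hreach := G.iter_app (B := (G.M + 2) * (D + 2)) b k D j hlt hD2 (by omega)
      rw [hkD1, hkD2] at hreach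
      obtain ⟨N', hN', hbd'⟩ := key _ hreach
      refine ⟨N', b, k, D + 1, j, by omega, by omega, ?_, hj, hN', hbd'⟩
      nlinarith
    · have hDe : D = (G.row k).length := by omega
      have h1 := G.row_le_succ k
      have h2 := G.row_succ_le k
      rw [← hDe] at h2
      have h3 : G.M * D ≤ G.M * (D + 1) := Nat.mul_le_mul_left _ (by omega)
      have hreach := G.iter_sh (B := (G.M + 2) * (D + 2)) b k D j hDe (by omega) (by omega)
        (by omega)
      rw [hkD1, hkD2] at hreach
      obtain ⟨N', hN', hbd'⟩ := key _ hreach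
      exact ⟨N', !b, k + 1, D, G.row k, by omega, by omega, by omega, h1, hN', hbd'⟩

lemma all_bd (hne : G.r0 ≠ []) (t : ℕ) : G.Bd t := by
  obtain ⟨N, b, k, D, j, _, _, _, _, hconf, hbd⟩ := G.main_aux hne t
  apply hbd
  have h1 := G.out_le N
  have h2 := G.W_ge_succ hne (t + 1)
  rw [hconf] at h1
  have h3 : (G.LH b k D j (G.W (t + 1))).2.2.2 = G.W (t + 1) := rfl
  rw [h3] at h1
  omega

lemma out_prefix (hne : G.r0 ≠ []) (t : ℕ) : ∃ n, (G.conf t).2.2.2 <+: G.W n := by
  obtain ⟨N, b, k, D, j, _, _, _, _, hconf, _⟩ := G.main_aux hne t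
  have h1 := G.out_le N
  have h2 := G.W_ge_succ hne (t + 1)
  rw [hconf] at h1
  have h3 : (G.LH b k D j (G.W (t + 1))).2.2.2 = G.W (t + 1) := rfl
  rw [h3] at h1
  refine ⟨t + 1, ?_⟩
  rw [← h3, ← hconf]
  exact out_prefix_iter G.tr G.c0 t N (by omega)

lemma out_unbounded (hne : G.r0 ≠ []) (n : ℕ) : ∃ t, n ≤ (G.conf t).2.2.2.length := by
  obtain ⟨N, b, k, D, j, _, _, _, _, hconf, _⟩ := G.main_aux hne n
  refine ⟨N, ?_⟩
  rw [hconf]
  have h2 := G.W_ge_succ hne (n + 1)
  have h3 : (G.LH b k D j (G.W (n + 1))).2.2.2 = G.W (n + 1) := rfl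
  rw [h3]
  omega

lemma space (hne : G.r0 ≠ []) (n t : ℕ)
    (h : ∀ t' < t, (G.conf t').2.2.2.length < n) (j : Option Bool) :
    (G.conf t).2.2.1 j + 1 ≤ (4 * G.M + 10) * (Nat.sqrt n + 1) ∧
    ∀ N, n ≤ (G.W (N + 1)).length →
      (G.conf t).2.2.1 j + 1 ≤ (4 * G.M + 10) * (N + 1) ∧
      (G.conf t).2.2.1 j + 1 ≤ (4 * G.M + 10) * (G.row N).length := by
  have hrow : ∀ N, 1 ≤ (G.row N).length := by
    intro N
    have h1 : 0 < (G.row 0).length := List.length_pos_of_ne_nil hne
    have h2 := G.row_mono (k := 0) (l := N) (by omega)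
    omega
  rcases G.all_bd hne t with hb | ⟨k, D, hD, hW, hb⟩
  · have := hb j
    refine ⟨?_, ?_⟩
    · nlinarith [Nat.zero_le (Nat.sqrt n), Nat.zero_le G.M]
    · intro N _
      have := hrow N
      constructor <;> nlinarith [Nat.zero_le N, Nat.zero_le G.M]
  · have hj := hb j
    -- key inequality
    have hkey : ∀ X : ℕ, D ≤ X → (G.conf t).2.2.1 j + 1 ≤ (2 * G.M + 5) * (X + 1) := by
      intro X hX
      nlinarith [Nat.zero_le G.M]
    by_cases ht : t = 0
    · subst ht
      have h0 : (G.conf 0).2.2.1 j = 0 := rfl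
      rw [h0]
      refine ⟨by nlinarith [Nat.zero_le (Nat.sqrt n), Nat.zero_le G.M], ?_⟩
      intro N _
      have := hrow N
      constructor <;> nlinarith [Nat.zero_le N, Nat.zero_le G.M]
    · have hlt : (G.W (k + D + 1)).length < n := lt_of_le_of_lt hW (h (t - 1) (by omega))
      have hge := G.W_ge k D
      refine ⟨?_, ?_⟩
      · have hsq : D ≤ Nat.sqrt n := by
          rw [Nat.le_sqrt]
          nlinarith
        have := hkey _ hsq
        nlinarith [Nat.zero_le (Nat.sqrt n), Nat.zero_le G.M]
      · intro N hN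
        have hkN : k + D + 1 < N + 1 := by
          by_contra hcon
          have := G.W_mono (k := N + 1) (l := k + D + 1) (by omega)
          omega
        have h1 := G.row_mono (k := k) (l := N) (by omega)
        have h2 := hrow N
        constructor
        · have := hkey N (by omega)
          nlinarith [Nat.zero_le N, Nat.zero_le G.M]
        · have h3 := hkey ((G.row N).length) (by omega)
          nlinarith [Nat.zero_le G.M]

end Dgsm

end Pool.Agent.W_MP_5d512e_lc
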