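import Mathlib
import Pool.Agent.W_MP_5d512e_lc.Main

/-!
Finiteness of the machine and the link with the problem's formulation of dgsm's.
-/

namespace Pool.Agent.W_MP_5d512e_lc

variable {d p : ℕ}

instance finBL (M : ℕ) : Finite (BL d M) := by
  have : Set.Finite {l : List (Fin d) | l.length ≤ M} := List.finite_length_le (Fin d) M
  exact this.to_subtype

instance finSym (M : ℕ) : Finite (Sym d p M) := by
  let f : Sym d p M → Option (Option (Fin d ⊕ (Fin p × BL d M))) := fun s =>
    match s with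
    | .blank => none
    | .mark => some none
    | .ltr x => some (some (.inl x))
    | .lev q l => some (some (.inr (q, l)))
  apply Finite.of_injective f
  intro x y h
  cases x <;> cases y <;> simp_all [f]

instance finNxt : Finite Nxt := by
  let f : Nxt → Fin 3 := fun s =>
    match s with
    | .toCmp => 0
    | .toReq => 1
    | .toSh => 2
  apply Finite.of_injective f
  intro x y h
  cases x <;> cases y <;> simp_all [f]

instance finSt (M : ℕ) : Finite (St d p M) := by
  let f : St d p M → Option (BL d M ⊕ ((Bool × Fin p) ⊕ ((Bool × Fin p × Nxt) ⊕ ((Bool × Fin p) ⊕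
      ((Bool × Fin p × Fin d) ⊕ ((Bool × Fin p) ⊕ (Bool × Fin p × BL d M))))))) := fun s =>
    match s with
    | .start => none
    | .ini l => some (.inl l)
    | .cmp b s => some (.inr (.inl (b, s)))
    | .rew b s n => some (.inr (.inr (.inl (b, s, n))))
    | .req b s => some (.inr (.inr (.inr (.inl (b, s)))))
    | .feed b s x => some (.inr (.inr (.inr (.inr (.inl (b, s, x))))))
    | .sh b s => some (.inr (.inr (.inr (.inr (.inr (.inl (b, s)))))))
    | .shw b s l => some (.inr (.inr (.inr (.inr (.inr (.inr (b, s, l)))))))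
  apply Finite.of_injective f
  intro x y h
  cases x <;> cases y <;> simp_all [f]

lemma foldl_eq (G : Dgsm d p) (u : List (Fin d)) : ∀ (q : Fin p) (v : List (Fin d)),
    List.foldl (fun (acc : Fin p × List (Fin d)) (x : Fin d) =>
        (G.δ acc.1 x, acc.2 ++ G.out acc.1 x)) (q, v) u = (G.st q u, v ++ G.trans q u) := by
  induction u with
  | nil => intro q v; simp [Dgsm.st, Dgsm.trans]
  | cons x u ih =>
    intro q v
    rw [List.foldl_cons, ih]
    simp [Dgsm.st, Dgsm.trans]

theorem main_theorem (d p : ℕ) (δ : Fin p → Fin d → Fin p) (q0 : Fin p)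
    (out : Fin p → Fin d → List (Fin d)) (τ : List (Fin d) → List (Fin d))
    (a : Fin d) (w : ℕ → Fin d)
    (hne : ∀ s x, out s x ≠ [])
    (hτ : τ = fun u => (List.foldl (fun (acc : Fin p × List (Fin d)) (x : Fin d) =>
        (δ acc.1 x, acc.2 ++ out acc.1 x)) (q0, []) u).2)
    (ha : [a] <+: τ [a])
    (hunb : ∀ N : ℕ, ∃ n : ℕ, N ≤ (τ^[n] [a]).length)
    (hw : ∀ (n i : ℕ) (h : i < (τ^[n] [a]).length), (τ^[n] [a])[i] = w i) :
    ∃ (m k g C : ℕ)
      (δM : Fin (m+1) → (Fin k → Fin (g+1)) →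
        Fin (m+1) × (Fin k → Fin (g+1)) × (Fin k → Fin 3) × Option (Fin d))
      (conf : ℕ → Fin (m+1) × (Fin k → ℕ → Fin (g+1)) × (Fin k → ℕ) × List (Fin d)),
      conf 0 = (0, fun _ _ => 0, fun _ => 0, []) ∧
      (∀ t : ℕ, conf (t+1) =
        ((δM (conf t).1 (fun j => (conf t).2.1 j ((conf t).2.2.1 j))).1,
         fun j i => if i = (conf t).2.2.1 j
           then (δM (conf t).1 (fun j' => (conf t).2.1 j' ((conf t).2.2.1 j'))).2.1 j
           else (conf t).2.1 j i,
         fun j => (conf t).2.2.1 j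
           + ((δM (conf t).1 (fun j' => (conf t).2.1 j' ((conf t).2.2.1 j'))).2.2.1 j : ℕ) - 1,
         (conf t).2.2.2
           ++ ((δM (conf t).1 (fun j' => (conf t).2.1 j' ((conf t).2.2.1 j'))).2.2.2).toList)) ∧
      (∀ (t i : ℕ) (h : i < (conf t).2.2.2.length), (conf t).2.2.2[i] = w i) ∧
      (∀ n : ℕ, ∃ t : ℕ, n ≤ (conf t).2.2.2.length) ∧
      (∀ n t : ℕ, 1 ≤ n → (∀ t' < t, (conf t').2.2.2.length < n) →
        ∀ j : Fin k,
          (conf t).2.2.1 j + 1 ≤ C * (Nat.sqrt n + 1) ∧
          ∀ N : ℕ, n ≤ (τ^[N+1] [a]).length →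
            (conf t).2.2.1 j + 1 ≤ C * (N + 1) ∧
            (conf t).2.2.1 j + 1 ≤ C * ((τ^[N+1] [a]).length - (τ^[N] [a]).length)) := by
  classical
  -- bound on the lengths of the emitted words
  obtain ⟨M, hM⟩ : ∃ M, ∀ s x, (out s x).length ≤ M := by
    refine ⟨Finset.univ.sup (fun sx : Fin p × Fin d => (out sx.1 sx.2).length), ?_⟩
    intro s x
    exact Finset.le_sup (f := fun sx : Fin p × Fin d => (out sx.1 sx.2).length)
      (Finset.mem_univ (s, x))
  have hτa : τ [a] = out q0 a := by rw [hτ]; simp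
  obtain ⟨r0, hr0⟩ : ∃ r0, out q0 a = a :: r0 := by
    rw [hτa] at ha
    obtain ⟨r, hr⟩ := ha
    exact ⟨r, by rw [← hr]; rfl⟩
  let G : Dgsm d p := ⟨δ, q0, out, M, hM, hne, a, r0, hr0⟩
  have hτG : τ = G.trans G.q0 := by
    rw [hτ]
    funext u
    have := foldl_eq G u G.q0 []
    simp only [List.nil_append] at this
    exact congrArg Prod.snd this
  have hW : ∀ n, τ^[n] [a] = G.W n := by
    intro n
    unfold Dgsm.W
    rw [hτG]
  have hr0ne : G.r0 ≠ [] := by
    intro h0
    have h1 : τ [a] = [a] := by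
      rw [hτa, hr0]
      have : r0 = [] := h0
      rw [this]
    have h2 : ∀ n, τ^[n] [a] = [a] := by
      intro n
      induction n with
      | zero => rfl
      | succ n ih => rw [Function.iterate_succ_apply', ih, h1]
    obtain ⟨n, hn⟩ := hunb 2
    rw [h2 n] at hn
    simp at hn
  obtain ⟨m, k, g, δM, conf, e, h0, hstep, hout, hhead⟩ :=
    encode (ι := Option Bool) (St.start : St d p G.M) (Sym.blank : Sym d p G.M) G.tr
  have hout' : ∀ t, (conf t).2.2.2 = (G.conf t).2.2.2 := hout
  have hhead' : ∀ t j, (conf t).2.2.1 j = (G.conf t).2.2.1 (e.symm j) := hhead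
  refine ⟨m, k, g, 4 * G.M + 10, δM, conf, h0, hstep, ?_, ?_, ?_⟩
  · intro t i h
    obtain ⟨n, hn⟩ := G.out_prefix hr0ne t
    have h1 : i < (G.conf t).2.2.2.length := by rw [← hout']; exact h
    have h2 : i < (G.W n).length := lt_of_lt_of_le h1 hn.length_le
    have h3 : i < (τ^[n] [a]).length := by rw [hW]; exact h2
    rw [← hw n i h3]
    have h4 := hn.getElem h1
    simp only [hout', hW]
    exact h4
  · intro n
    obtain ⟨t, ht⟩ := G.out_unbounded hr0ne n
    exact ⟨t, by rw [hout']; exact ht⟩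
  · intro n t _ h j
    have hs := G.space hr0ne n t (fun t' ht' => by rw [← hout']; exact h t' ht') (e.symm j)
    rw [hhead']
    refine ⟨hs.1, ?_⟩
    intro N hN
    rw [hW, hW] at *
    have h2 := hs.2 N hN
    refine ⟨h2.1, ?_⟩
    rw [G.W_length_succ, Nat.add_sub_cancel_left]
    exact h2.2

end Pool.Agent.W_MP_5d512e_lc
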